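import Pool.Agent.PB.FinalMain

/-!
# `β = 1` in the asymptotic sense for bond percolation on `ℤ^d`, `d` large

MP_5300c3_pr, Q1, with definitions taken literally from the problem file: the nearest neighbour
graph of `ℤ^d`, every edge open independently with probability `p`.
-/

set_option autoImplicit false
open MeasureTheory Filter Topology
open scoped ENNReal BigOperators

namespace Pool.Agent.Results.MP_5300c3_pr.LimitOfRatio

/-- The nearest neighbour graph of `ℤ^d`: `x` and `y` are adjacent iff `|x - y|_1 = 1`. -/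
def Lat (d : ℕ) : SimpleGraph (Fin d → ℤ) where
  Adj x y := ∑ i, |x i - y i| = 1
  symm := ⟨by
    intro x y h
    rw [← h]
    exact Finset.sum_congr rfl fun i _ => abs_sub_comm _ _⟩
  loopless := ⟨by
    intro x h
    simp at h⟩

/-- The law of one edge: `true` (open) with probability `p`, `false` with probability `1 - p`. -/
noncomputable def bern (p : unitInterval) : Measure Bool :=
  ENNReal.ofReal (p : ℝ) • Measure.dirac true + ENNReal.ofReal (1 - (p : ℝ)) • Measure.dirac false

instance (p : unitInterval) : IsProbabilityMeasure (bern p) := by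
  constructor
  rw [bern, Measure.add_apply, Measure.smul_apply, Measure.smul_apply, measure_univ, measure_univ,
    smul_eq_mul, smul_eq_mul, mul_one, mul_one, ← ENNReal.ofReal_add p.2.1 (by linarith [p.2.2])]
  simp

/-- The law `P_p`: the edges are open independently with probability `p`. -/
noncomputable def Perc (d : ℕ) (p : unitInterval) : Measure ((Lat d).edgeSet → Bool) :=
  Measure.infinitePi (fun _ => bern p)

instance (d : ℕ) (p : unitInterval) : IsProbabilityMeasure (Perc d p) := by
  unfold Perc; infer_instance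

/-- The graph of the open edges. -/
def openGraph {d : ℕ} (ω : (Lat d).edgeSet → Bool) : SimpleGraph (Fin d → ℤ) :=
  SimpleGraph.fromEdgeSet {e | ∃ h : e ∈ (Lat d).edgeSet, ω ⟨e, h⟩ = true}

/-- The open cluster `C(0)` of the origin. -/
def cluster {d : ℕ} (ω : (Lat d).edgeSet → Bool) : Set (Fin d → ℤ) :=
  {x | (openGraph ω).Reachable 0 x}

/-- The percolation function `θ(p) = P_p(|C(0)| = ∞)`. -/
noncomputable def theta (d : ℕ) (p : unitInterval) : ℝ :=
  (Perc d p).real {ω | (cluster ω).Infinite}

/-- The critical point `p_c = sup {p ∈ [0,1] : θ(p) = 0}`. -/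
noncomputable def pc (d : ℕ) : unitInterval := sSup {p | theta d p = 0}

/-! ### translation -/

open Pool.Agent.PB in
theorem Lat_eq (d : ℕ) : Lat d = lat d := by
  ext x y
  show (∑ i, |x i - y i| = 1) ↔ l1 (y - x) = 1
  have : (∑ i, |x i - y i|) = l1 (y - x) :=
    Finset.sum_congr rfl fun i _ => abs_sub_comm _ _
  rw [this]

/-- threshold map -/
noncomputable def thr01 {d : ℕ} (p : unitInterval) (ω : Pool.Agent.PB.Om d) :
    (Lat d).edgeSet → Bool := fun e => decide (ω (Sum.inl e.1) ≤ p)

theorem measurable_dec (p : unitInterval) :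
    Measurable (fun u : unitInterval => decide (u ≤ p)) := by
  refine measurable_to_bool ?_
  have : (fun u : unitInterval => decide (u ≤ p)) ⁻¹' {true} = Set.Iic p := by
    ext u; simp
  rw [this]
  exact measurableSet_Iic

theorem map_dec (p : unitInterval) :
    (volume : Measure unitInterval).map (fun u => decide (u ≤ p)) = bern p := by
  have h1 : (volume : Measure unitInterval) (Set.Iic p) = ENNReal.ofReal (p : ℝ) := by
    simp
  have h2 : (volume : Measure unitInterval) (Set.Ioi p) = ENNReal.ofReal (1 - (p : ℝ)) := by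
    simp
  refine Measure.ext_of_singleton ?_
  intro b
  rw [Measure.map_apply (measurable_dec p) (measurableSet_singleton b)]
  cases b
  · have : (fun u : unitInterval => decide (u ≤ p)) ⁻¹' {false} = Set.Ioi p := by
      ext u; simp
    rw [this, h2]
    simp [bern]
  · have : (fun u : unitInterval => decide (u ≤ p)) ⁻¹' {true} = Set.Iic p := by
      ext u; simp
    rw [this, h1]
    simp [bern]

theorem measurable_thr01 {d : ℕ} (p : unitInterval) : Measurable (thr01 (d := d) p) :=
  measurable_pi_lambda _ fun _ => (measurable_dec p).comp (measurable_pi_apply _)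

theorem map_thr01 (d : ℕ) (p : unitInterval) :
    (Pool.Agent.PB.Pr d).map (thr01 p) = Perc d p := by
  classical
  apply Measure.eq_infinitePi
  intro s t ht
  rw [Measure.map_apply (measurable_thr01 p) (MeasurableSet.pi s.countable_toSet fun i _ => ht i)]
  have hinj : Function.Injective
      (fun e : (Lat d).edgeSet => (Sum.inl e.1 : Pool.Agent.PB.Ix d)) := by
    intro a b h
    exact Subtype.ext (Sum.inl.inj h)
  have : thr01 p ⁻¹' (Set.pi (s : Set _) t) =
      Set.pi ((s.image (fun e : (Lat d).edgeSet => (Sum.inl e.1 : Pool.Agent.PB.Ix d)) :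
        Finset (Pool.Agent.PB.Ix d)) : Set (Pool.Agent.PB.Ix d))
        (Function.extend (fun e : (Lat d).edgeSet => (Sum.inl e.1 : Pool.Agent.PB.Ix d))
          (fun e => (fun u : unitInterval => decide (u ≤ p)) ⁻¹' t e) fun _ => Set.univ) := by
    ext ω
    simp only [Set.mem_preimage, Set.mem_pi, Finset.coe_image, Set.mem_image, Finset.mem_coe,
      forall_exists_index, and_imp]
    constructor
    · rintro h _ a ha rfl
      rw [hinj.extend_apply]
      exact h a ha
    · intro h a ha
      have := h _ a ha rfl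
      rwa [hinj.extend_apply] at this
  rw [this, Pool.Agent.PB.Pr, Measure.infinitePi_pi]
  · rw [Finset.prod_image (fun a _ b _ h => hinj h)]
    refine Finset.prod_congr rfl fun a _ => ?_
    rw [hinj.extend_apply, ← map_dec, Measure.map_apply (measurable_dec p) (ht a)]
  · intro i hi
    rw [Finset.mem_image] at hi
    obtain ⟨a, _, rfl⟩ := hi
    rw [hinj.extend_apply]
    exact measurable_dec p (ht a)

theorem cluster_eq {d : ℕ} (ω : (Lat d).edgeSet → Bool) :
    cluster ω = Pool.Agent.PB.Cl {e | ∃ h : e ∈ (Lat d).edgeSet, ω ⟨e, h⟩ = true} 0 := by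
  ext x
  exact Pool.Agent.PB.rch_iff_reachable.symm

theorem cluster_thr01 {d : ℕ} (p : unitInterval) (ω : Pool.Agent.PB.Om d) :
    cluster (thr01 p ω) = Pool.Agent.PB.Cl (Pool.Agent.PB.opn (p : ℝ) ω) 0 := by
  rw [cluster_eq]
  congr 1
  ext e
  simp only [Set.mem_ofPred_eq, thr01, decide_eq_true_eq, exists_prop, Pool.Agent.PB.opn,
    Lat_eq, Subtype.coe_le_coe]

theorem MVS_cluster (d : ℕ) :
    Pool.Agent.PB.MVS (fun ω : (Lat d).edgeSet → Bool => cluster ω) := by
  classical
  have hM : Pool.Agent.PB.MES (fun ω : (Lat d).edgeSet → Bool =>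
      {e | ∃ h : e ∈ (Lat d).edgeSet, ω ⟨e, h⟩ = true}) := by
    intro e
    by_cases h : e ∈ (Lat d).edgeSet
    · have : {ω : (Lat d).edgeSet → Bool |
          e ∈ {e | ∃ h : e ∈ (Lat d).edgeSet, ω ⟨e, h⟩ = true}} =
          (fun ω : (Lat d).edgeSet → Bool => ω ⟨e, h⟩) ⁻¹' {true} := by
        ext ω
        simp [h]
      rw [this]
      exact measurable_pi_apply _ (measurableSet_singleton _)
    · have : {ω : (Lat d).edgeSet → Bool |
          e ∈ {e | ∃ h : e ∈ (Lat d).edgeSet, ω ⟨e, h⟩ = true}} = ∅ := by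
        ext ω
        simp [h]
      rw [this]
      exact MeasurableSet.empty
  have h := hM.cl (0 : Fin d → ℤ)
  simpa only [cluster_eq] using h

theorem theta_eq (d : ℕ) (p : unitInterval) : theta d p = Pool.Agent.PB.thr d (p : ℝ) := by
  rw [theta, Measure.real, ← map_thr01,
    Measure.map_apply (measurable_thr01 p) (MVS_cluster d).infinite]
  unfold Pool.Agent.PB.thr Pool.Agent.PB.theta
  congr 2
  ext ω
  simp only [Set.mem_preimage, Set.mem_ofPred_eq, cluster_thr01]

theorem pc_eq {d : ℕ} (hC : Pool.Agent.PB.Crit d) (h5 : Pool.Agent.PB.Out5 d) :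
    ((pc d : unitInterval) : ℝ) = Pool.Agent.PB.pc d ∧
      ∀ p : unitInterval, theta d p = 0 ↔ (p : ℝ) ≤ Pool.Agent.PB.pc d := by
  have h0 : ∀ p : unitInterval, theta d p = 0 ↔ (p : ℝ) ≤ Pool.Agent.PB.pc d := by
    intro p
    rw [theta_eq]
    constructor
    · intro h
      by_contra hlt
      push Not at hlt
      obtain ⟨c, hc, h2⟩ := hC.theta_ge
      have := h2 p hlt p.2.2
      rw [h] at this
      have : 0 < c * ((p : ℝ) - Pool.Agent.PB.pc d) := mul_pos hc (by linarith)
      linarith
    · intro h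
      rcases h.lt_or_eq with h | h
      · rw [Pool.Agent.PB.thr, hC.theta_zero _ h]; simp
      · rw [h, Pool.Agent.PB.thr, h5.theta_pc]; simp
  refine ⟨?_, h0⟩
  have hs : {p : unitInterval | theta d p = 0} =
      Set.Iic (⟨Pool.Agent.PB.pc d, hC.pc_pos.le, hC.pc_lt.le⟩ : unitInterval) := by
    ext p
    exact h0 p
  rw [pc, hs, csSup_Iic]

/-- There is `d₀` such that for all `d ≥ d₀`, for nearest neighbour bond percolation on `ℤ^d`:
`0 < p_c < 1`, `θ(p) = 0` iff `p ≤ p_c`, and `θ(p) / (p - p_c)` converges to a constant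
`C ∈ (0, ∞)` as `p ↘ p_c`; moreover `(1 - E_{p_c} exp(-h |C(0)|)) / √h` converges to a positive
constant as `h ↘ 0`. -/
theorem result :
    ∃ d₀ : ℕ, ∀ d : ℕ, d₀ ≤ d →
      0 < pc d ∧ pc d < 1 ∧ (∀ p : unitInterval, theta d p = 0 ↔ p ≤ pc d) ∧
      (∃ C : ℝ, 0 < C ∧
        Tendsto (fun p : unitInterval => theta d p / ((p : ℝ) - (pc d : ℝ)))
          (𝓝[>] (pc d)) (𝓝 C)) ∧
      ∃ C' : ℝ, 0 < C' ∧
        Tendsto (fun h : ℝ => (∫ ω, (1 - Real.exp (-(h * ((cluster ω).ncard : ℝ))))
          ∂(Perc d (pc d))) / Real.sqrt h) (𝓝[>] 0) (𝓝 C') := by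
  obtain ⟨d0, hcrit⟩ := Pool.Agent.PB.S3.crit_of
  obtain ⟨d1, hlim⟩ := Pool.Agent.PB.theta_limit
  refine ⟨max d0 d1, fun d hd => ?_⟩
  have hC : Pool.Agent.PB.Crit d := hcrit d (le_trans (le_max_left _ _) hd)
  have h5 : Pool.Agent.PB.Out5 d := Pool.Agent.PB.S5.out5 hC
  have h6 : Pool.Agent.PB.Out6 d := Pool.Agent.PB.out6 hC h5
  obtain ⟨b, h7⟩ := Pool.Agent.PB.S7.out7 hC h5 h6
  obtain ⟨hpc, hθ⟩ := pc_eq hC h5
  refine ⟨?_, ?_, ?_, ?_, ?_⟩
  · have := hC.pc_pos
    rw [← hpc] at this
    exact this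
  · have := hC.pc_lt
    rw [← hpc] at this
    exact this
  · intro p
    rw [hθ p, ← hpc]
    exact Subtype.coe_le_coe
  · obtain ⟨C, hC0, hT⟩ := hlim d (le_trans (le_max_right _ _) hd)
    refine ⟨C, hC0, ?_⟩
    have hmap : Tendsto (fun p : unitInterval => (p : ℝ) - (pc d : ℝ)) (𝓝[>] (pc d))
        (𝓝[>] (0 : ℝ)) := by
      refine tendsto_nhdsWithin_iff.2 ⟨?_, ?_⟩
      · have h1 : Tendsto (fun p : unitInterval => (p : ℝ) - (pc d : ℝ)) (𝓝 (pc d))
            (𝓝 (((pc d : unitInterval) : ℝ) - (pc d : ℝ))) :=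
          (continuous_subtype_val.sub continuous_const).tendsto _
        rw [sub_self] at h1
        exact h1.mono_left nhdsWithin_le_nhds
      · filter_upwards [self_mem_nhdsWithin] with p hp
        have : (pc d : ℝ) < (p : ℝ) := hp
        exact sub_pos.2 this
    refine (hT.comp hmap).congr fun p => ?_
    show (Pool.Agent.PB.theta d (Pool.Agent.PB.pc d + ((p : ℝ) - (pc d : ℝ)))).toReal /
      ((p : ℝ) - (pc d : ℝ)) = _
    rw [theta_eq, Pool.Agent.PB.thr, hpc, add_sub_cancel]
  · refine ⟨1 / Real.sqrt b, by have := h7.b_pos; positivity, ?_⟩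
    refine h7.lim.congr' ?_
    filter_upwards [self_mem_nhdsWithin] with h hh
    have hh' : 0 < h := hh
    rw [← Pool.Agent.PB.S8.EW_W1 h5 hh']
    congr 1
    unfold Pool.Agent.PB.EW
    simp only [Pool.Agent.PB.WA_D0, Pool.Agent.PB.W1]
    rw [← map_thr01, integral_map (measurable_thr01 _).aemeasurable]
    · refine integral_congr_ae (Eventually.of_forall fun ω => ?_)
      simp only [cluster_thr01, hpc]
      rfl
    · have hm : Measurable (fun ω : (Lat d).edgeSet → Bool => (cluster ω).ncard) :=
        (measurable_of_countable (fun n : ℕ∞ => n.toNat)).comp (MVS_cluster d).encard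
      have : Measurable (fun ω : (Lat d).edgeSet → Bool =>
          1 - Real.exp (-(h * ((cluster ω).ncard : ℝ)))) :=
        measurable_const.sub (Real.measurable_exp.comp
          ((measurable_const.mul (measurable_from_nat.comp hm)).neg))
      exact this.aestronglyMeasurable

end Pool.Agent.Results.MP_5300c3_pr.LimitOfRatio
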